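import Mathlib
set_option autoImplicit false
namespace Pool.Agent.Results.MP_e25616_lc.DetLowerBound

open Finset

/-- A non-preemptive schedule of `n` jobs on machines `0, 1, 2, …` arranged in a line: job `j` starts at
time `start j`, and the first of its consecutive machines is `pos j`. -/
structure Schedule (n : ℕ) where
  start : Fin n → ℝ
  pos : Fin n → ℕ

/-- Job `j` requests `s j` machines, `1 ≤ s j ≤ m`, and has running time `t j ≥ 0`. -/
def Valid (m : ℕ) {n : ℕ} (s : Fin n → ℕ) (t : Fin n → ℝ) : Prop :=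
  (∀ j, 1 ≤ s j ∧ s j ≤ m) ∧ ∀ j, 0 ≤ t j

/-- Job `j` occupies the machines `pos j, …, pos j + s j - 1`, all among `0, …, m - 1`, during the time
interval `[start j, start j + t j)`; no machine runs two jobs at once. -/
def Feasible (m : ℕ) {n : ℕ} (s : Fin n → ℕ) (t : Fin n → ℝ) (σ : Schedule n) : Prop :=
  (∀ j, 0 ≤ σ.start j) ∧ (∀ j, σ.pos j + s j ≤ m) ∧
  ∀ i j, i ≠ j → ∀ τ : ℝ, σ.start i ≤ τ → τ < σ.start i + t i →
    σ.start j ≤ τ → τ < σ.start j + t j →
    σ.pos i + s i ≤ σ.pos j ∨ σ.pos j + s j ≤ σ.pos i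

/-- The makespan: the largest completion time. -/
noncomputable def makespan {n : ℕ} (t : Fin n → ℝ) (σ : Schedule n) : ℝ :=
  ⨆ j, (σ.start j + t j)

/-- The optimal (offline) makespan. -/
noncomputable def OPT (m : ℕ) {n : ℕ} (s : Fin n → ℕ) (t : Fin n → ℝ) : ℝ :=
  sInf {x | ∃ σ : Schedule n, Feasible m s t σ ∧ makespan t σ = x}

/-- A deterministic batch-style online algorithm on `m` machines. It knows all the `s j` from the start, and
`run n s t` is the feasible schedule it produces when the running times are `t`. The running time of a job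
is learned only when the job completes: if `t` and `t'` are indistinguishable before time `τ` along the
schedule for `t` (the jobs completed before `τ` have the same running times, and the jobs then running
would not have completed before `τ` with `t'` either), then the two schedules agree before time `τ`. -/
structure OnlineAlg (m : ℕ) where
  run : (n : ℕ) → (Fin n → ℕ) → (Fin n → ℝ) → Schedule n
  feasible : ∀ (n : ℕ) (s : Fin n → ℕ) (t : Fin n → ℝ), Valid m s t →
    Feasible m s t (run n s t)
  nonanticipating : ∀ (n : ℕ) (s : Fin n → ℕ) (t t' : Fin n → ℝ), Valid m s t → Valid m s t' →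
    ∀ τ : ℝ,
      (∀ j, (run n s t).start j + t j < τ → t' j = t j) →
      (∀ j, (run n s t).start j < τ → τ ≤ (run n s t).start j + t j →
        τ ≤ (run n s t).start j + t' j) →
      ∀ j, ((run n s t).start j < τ →
              (run n s t').start j = (run n s t).start j ∧
              (run n s t').pos j = (run n s t).pos j) ∧
           (τ ≤ (run n s t).start j → τ ≤ (run n s t').start j)

/-- The algorithm is `c`-competitive: its makespan is at most `c` times the optimum on every instance. -/
def OnlineAlg.Competitive {m : ℕ} (A : OnlineAlg m) (c : ℝ) : Prop :=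
  ∀ (n : ℕ) (s : Fin n → ℕ) (t : Fin n → ℝ), Valid m s t →
    makespan t (A.run n s t) ≤ c * OPT m s t

lemma count_le {ι : Type*} [DecidableEq ι] (y : ℕ) (hy : 0 < y) (D : Finset ι) (f : ι → ℕ)
    (e c : ℕ)
    (hec : e ≤ c) (h1 : ∀ d ∈ D, e ≤ f d ∧ f d + y ≤ c)
    (h2 : ∀ d ∈ D, ∀ d' ∈ D, d ≠ d' → f d + y ≤ f d' ∨ f d' + y ≤ f d) :
    y * D.card + e + (c - e) % y ≤ c := by
  have hcard : (D.biUnion (fun d => Finset.Ico (f d) (f d + y))).card = ∑ d ∈ D, y := by
    rw [Finset.card_biUnion]
    · apply Finset.sum_congr rfl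
      intro d _
      simp
    · intro d hd d' hd' hne
      change Disjoint (Finset.Ico (f d) (f d + y)) (Finset.Ico (f d') (f d' + y))
      rw [Finset.disjoint_left]
      intro a ha hb
      rw [Finset.mem_Ico] at ha hb
      rcases h2 d hd d' hd' hne with h | h <;> omega
  have hsub : D.biUnion (fun d => Finset.Ico (f d) (f d + y)) ⊆ Finset.Ico e c := by
    intro a ha
    rw [Finset.mem_biUnion] at ha
    obtain ⟨d, hd, hd2⟩ := ha
    rw [Finset.mem_Ico] at hd2 ⊢
    have := h1 d hd
    omega
  have h3 := Finset.card_le_card hsub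
  rw [hcard, Finset.sum_const, smul_eq_mul, Nat.card_Ico] at h3
  have h4 : D.card ≤ (c - e) / y := by
    rw [Nat.le_div_iff_mul_le hy]; exact h3
  have h5 : y * D.card ≤ y * ((c-e)/y) := Nat.mul_le_mul_left _ h4
  have h6 := Nat.div_add_mod (c-e) y
  omega

/-- waste recursion -/
def W {ι : Type*} (pos s : ι → ℕ) (y : ℕ) : ℕ → List ι → ℕ
  | _, [] => 0
  | _, [_] => 0
  | e, a :: b :: l =>
      max ((pos b - e) % y) ((pos a - e) % y + (pos b - (pos a + s a)) % y)
        + W pos s y (pos b + s b) l

/-- set of `y`-wide segments `f d`, `d ∈ D`, inside `[e, b)` pairwise disjoint -/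
def Packed {ι : Type*} (y : ℕ) (D : Finset ι) (f : ι → ℕ) (e b : ℕ) : Prop :=
  (∀ d ∈ D, e ≤ f d ∧ f d + y ≤ b) ∧
  (∀ d ∈ D, ∀ d' ∈ D, d ≠ d' → f d + y ≤ f d' ∨ f d' + y ≤ f d)

def Avoids {ι : Type*} (pos s : ι → ℕ) (y : ℕ) (D : Finset ι) (f : ι → ℕ) (H : Finset ι) : Prop :=
  ∀ d ∈ D, ∀ h ∈ H, f d + y ≤ pos h ∨ pos h + s h ≤ f d

lemma sum_insert_le_nat {ι : Type*} [DecidableEq ι] (a : ι) (H : Finset ι) (s : ι → ℕ) :
    ∑ h ∈ insert a H, s h ≤ s a + ∑ h ∈ H, s h := by
  by_cases ha : a ∈ H
  · rw [Finset.insert_eq_of_mem ha]; omega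
  · rw [Finset.sum_insert ha]

lemma count_filter {ι : Type*} [DecidableEq ι] (y : ℕ) (hy : 0 < y) (D : Finset ι) (f : ι → ℕ)
    (e b c d : ℕ) (hD : Packed y D f e b) (hcd : c ≤ d) :
    y * (D.filter (fun x => c ≤ f x ∧ f x + y ≤ d)).card + c + (d - c) % y ≤ d := by
  apply count_le y hy _ f c d hcd
  · intro x hx
    exact (Finset.mem_filter.mp hx).2
  · intro x hx x' hx' hne
    exact hD.2 x (Finset.mem_filter.mp hx).1 x' (Finset.mem_filter.mp hx').1 hne

lemma claim1 {ι : Type*} [DecidableEq ι] (pos s : ι → ℕ) (y : ℕ) (hy : 0 < y) (b : ℕ) :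
    ∀ (k : ℕ) (l : List ι), l.length ≤ k → ∀ (e : ℕ),
      l.Pairwise (fun i j => pos i + s i ≤ pos j) → (∀ i ∈ l, e ≤ pos i) →
      (∀ i ∈ l, pos i + s i ≤ b) → e ≤ b →
      ∃ H : Finset ι, H ⊆ l.toFinset ∧ ∀ (D : Finset ι) (f : ι → ℕ), Packed y D f e b →
        Avoids pos s y D f H → y * D.card + ∑ h ∈ H, s h + W pos s y e l + e ≤ b := by
  intro k
  induction k with
  | zero =>
    intro l hl e _ _ _ heb
    have : l = [] := by
      cases l with
      | nil => rfl
      | cons a t => simp at hl
    subst this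
    refine ⟨∅, by simp, ?_⟩
    intro D f hP _
    have := count_le y hy D f e b heb hP.1 hP.2
    simp [W]
    omega
  | succ k ih =>
    intro l hl e hpw he hb heb
    match l, hl, hpw, he, hb with
    | [], _, _, _, _ =>
      refine ⟨∅, by simp, ?_⟩
      intro D f hP _
      have := count_le y hy D f e b heb hP.1 hP.2
      simp [W]
      omega
    | [a], _, _, _, _ =>
      refine ⟨∅, by simp, ?_⟩
      intro D f hP _
      have := count_le y hy D f e b heb hP.1 hP.2
      simp [W]
      omega
    | a :: a' :: l', hl, hpw, he, hb =>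
      rw [List.pairwise_cons] at hpw
      obtain ⟨hpa, hpw'⟩ := hpw
      rw [List.pairwise_cons] at hpw'
      obtain ⟨hpa', hpw''⟩ := hpw'
      have h1 : e ≤ pos a := he a (by simp)
      have h2 : pos a + s a ≤ pos a' := hpa a' (by simp)
      have h3 : pos a' + s a' ≤ b := hb a' (by simp)
      obtain ⟨H, hHsub, hH⟩ := ih l' (by simp at hl ⊢; omega) (pos a' + s a') hpw''
        (fun i hi => hpa' i hi) (fun i hi => hb i (by simp [hi])) h3
      by_cases hc : (pos a - e) % y + (pos a' - (pos a + s a)) % y ≤ (pos a' - e) % y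
      · -- `a` free
        refine ⟨insert a' H, ?_, ?_⟩
        · intro x hx
          rw [Finset.mem_insert] at hx
          rcases hx with rfl | hx
          · simp
          · have := hHsub hx
            simp at this ⊢
            tauto
        · intro D f hP hA
          have hD2 : Packed y (D.filter (fun x => pos a' + s a' ≤ f x ∧ f x + y ≤ b)) f
              (pos a' + s a') b := by
            refine ⟨fun d hd => (Finset.mem_filter.mp hd).2, fun d hd d' hd' hne => ?_⟩
            exact hP.2 d (Finset.mem_filter.mp hd).1 d' (Finset.mem_filter.mp hd').1 hne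
          have hA2 : Avoids pos s y (D.filter (fun x => pos a' + s a' ≤ f x ∧ f x + y ≤ b)) f H :=
            fun d hd h hh => hA d (Finset.mem_filter.mp hd).1 h (Finset.mem_insert_of_mem hh)
          have hr := hH _ f hD2 hA2
          have hl1 := count_filter y hy D f e b e (pos a') hP (by omega)
          have hcover : D ⊆ (D.filter (fun x => e ≤ f x ∧ f x + y ≤ pos a')) ∪
              (D.filter (fun x => pos a' + s a' ≤ f x ∧ f x + y ≤ b)) := by
            intro d hd
            rw [Finset.mem_union, Finset.mem_filter, Finset.mem_filter]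
            have q1 := hP.1 d hd
            rcases hA d hd a' (Finset.mem_insert_self _ _) with q | q
            · left; exact ⟨hd, q1.1, q⟩
            · right; exact ⟨hd, q, q1.2⟩
          have hcc := (Finset.card_le_card hcover).trans (Finset.card_union_le _ _)
          have hcc2 := Nat.mul_le_mul_left y hcc
          rw [Nat.mul_add] at hcc2
          have hs := sum_insert_le_nat a' H s
          have hW : W pos s y e (a :: a' :: l') = (pos a' - e) % y + W pos s y (pos a' + s a') l' := by
            rw [W, max_eq_left hc]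
          rw [hW]
          omega
      · -- `a` held
        refine ⟨insert a (insert a' H), ?_, ?_⟩
        · intro x hx
          rw [Finset.mem_insert, Finset.mem_insert] at hx
          rcases hx with rfl | rfl | hx
          · simp
          · simp
          · have := hHsub hx
            simp at this ⊢
            tauto
        · intro D f hP hA
          have hD2 : Packed y (D.filter (fun x => pos a' + s a' ≤ f x ∧ f x + y ≤ b)) f
              (pos a' + s a') b := by
            refine ⟨fun d hd => (Finset.mem_filter.mp hd).2, fun d hd d' hd' hne => ?_⟩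
            exact hP.2 d (Finset.mem_filter.mp hd).1 d' (Finset.mem_filter.mp hd').1 hne
          have hA2 : Avoids pos s y (D.filter (fun x => pos a' + s a' ≤ f x ∧ f x + y ≤ b)) f H :=
            fun d hd h hh => hA d (Finset.mem_filter.mp hd).1 h
              (Finset.mem_insert_of_mem (Finset.mem_insert_of_mem hh))
          have hr := hH _ f hD2 hA2
          have hl1 := count_filter y hy D f e b e (pos a) hP (by omega)
          have hl2 := count_filter y hy D f e b (pos a + s a) (pos a') hP (by omega)
          have hcover : D ⊆ ((D.filter (fun x => e ≤ f x ∧ f x + y ≤ pos a)) ∪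
              (D.filter (fun x => pos a + s a ≤ f x ∧ f x + y ≤ pos a'))) ∪
              (D.filter (fun x => pos a' + s a' ≤ f x ∧ f x + y ≤ b)) := by
            intro d hd
            rw [Finset.mem_union, Finset.mem_union, Finset.mem_filter, Finset.mem_filter,
              Finset.mem_filter]
            have q1 := hP.1 d hd
            rcases hA d hd a' (by simp) with q | q
            · rcases hA d hd a (by simp) with q' | q'
              · left; left; exact ⟨hd, q1.1, q'⟩
              · left; right; exact ⟨hd, q', q⟩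
            · right; exact ⟨hd, q, q1.2⟩
          have hcc := (Finset.card_le_card hcover).trans ((Finset.card_union_le _ _).trans
            (Nat.add_le_add_right (Finset.card_union_le _ _) _))
          have hcc2 := Nat.mul_le_mul_left y hcc
          rw [Nat.mul_add, Nat.mul_add] at hcc2
          have hs := sum_insert_le_nat a (insert a' H) s
          have hs' := sum_insert_le_nat a' H s
          have hW : W pos s y e (a :: a' :: l') =
              (pos a - e) % y + (pos a' - (pos a + s a)) % y + W pos s y (pos a' + s a') l' := by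
            rw [W, max_eq_right (by omega)]
          rw [hW]
          omega


/-- The numerical inequality used: for every width `x` in `Y` and every `i`. -/
def Star (Y : Finset ℕ) (Q : ℕ → ℕ) (A B : ℕ) : Prop :=
  ∀ x ∈ Y, ∀ i : ℕ, A * x ≤ ∑ y ∈ Y, Q y * max (i % y) ((x + i) % y) + B * i

lemma mod_add_le (a b y : ℕ) : (a + b) % y ≤ a % y + b % y := by
  rw [Nat.add_mod]; exact Nat.mod_le _ _

lemma claim2 {ι : Type*} (pos s : ι → ℕ) (Y : Finset ℕ) (Q : ℕ → ℕ) (A B K b : ℕ)
    (hstar : Star Y Q A B) (hK : ∀ x ∈ Y, x ≤ K) :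
    ∀ (l : List ι) (a : ι) (e : ℕ),
      (a :: l).Pairwise (fun i j => pos i + s i ≤ pos j) → (∀ i ∈ a :: l, s i ∈ Y) →
      e ≤ pos a → (∀ i ∈ a :: l, pos i + s i ≤ b) →
      ∀ I : ℕ, I + ((a :: l).map s).sum + e = b →
      A * ((a :: l).map s).sum + B * (pos a - e) ≤
        ∑ y ∈ Y, Q y * (W pos s y e (a :: l) + W pos s y (pos a + s a) l) + A * K + 2 * B * I := by
  intro l
  induction l with
  | nil =>
    intro a e _ hY he hb I hI
    have h1 := hY a (by simp)
    have h2 := hb a (by simp)
    have h3 := hK _ h1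
    simp [W] at hI ⊢
    have h4 : pos a - e ≤ I := by omega
    have h5 : A * s a ≤ A * K := Nat.mul_le_mul_left _ h3
    have h6 : B * (pos a - e) ≤ B * I := Nat.mul_le_mul_left _ h4
    nlinarith
  | cons a' l' ih =>
    intro a e hpw hY he hb I hI
    rw [List.pairwise_cons] at hpw
    obtain ⟨hpa, hpw'⟩ := hpw
    have h2 : pos a + s a ≤ pos a' := hpa a' (by simp)
    have hsum : ((a :: a' :: l').map s).sum = s a + ((a' :: l').map s).sum := by simp
    have hih := ih a' (pos a + s a) hpw' (fun i hi => hY i (by simp at hi ⊢; tauto)) h2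
      (fun i hi => hb i (by simp at hi ⊢; tauto)) (I - (pos a - e))
    have hIge : pos a - e ≤ I := by
      -- total width of the tail plus pos a + s a is at most b
      have key : ∀ (l : List ι) (e' : ℕ), l.Pairwise (fun i j => pos i + s i ≤ pos j) →
          (∀ i ∈ l, e' ≤ pos i) → (∀ i ∈ l, pos i + s i ≤ b) → e' ≤ b →
          (l.map s).sum + e' ≤ b := by
        intro l
        induction l with
        | nil => intro e' _ _ _ h; simpa using h
        | cons c t iht =>
          intro e' hp hle hbb _
          rw [List.pairwise_cons] at hp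
          have := iht (pos c + s c) hp.2 (fun i hi => hp.1 i hi)
            (fun i hi => hbb i (by simp [hi])) (hbb c (by simp))
          have h9 := hle c (by simp)
          simp only [List.map_cons, List.sum_cons]
          omega
      have := key (a' :: l') (pos a + s a) hpw' (fun i hi => hpa i hi)
        (fun i hi => hb i (by simp at hi ⊢; tauto)) (hb a (by simp))
      omega
    have hih2 := hih (by omega)
    have hst := hstar (s a) (hY a (by simp)) ((pos a - e) + (pos a' - (pos a + s a)))
    have hterm : ∀ y ∈ Y, Q y * max (((pos a - e) + (pos a' - (pos a + s a))) % y)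
          ((s a + ((pos a - e) + (pos a' - (pos a + s a)))) % y)
          + Q y * (W pos s y (pos a + s a) (a' :: l') + W pos s y (pos a' + s a') l') ≤
        Q y * (W pos s y e (a :: a' :: l') + W pos s y (pos a + s a) (a' :: l')) := by
      intro y _
      rw [← Nat.mul_add]
      apply Nat.mul_le_mul_left
      rw [W]
      have e1 : s a + ((pos a - e) + (pos a' - (pos a + s a))) = pos a' - e := by omega
      rw [e1]
      have e2 := mod_add_le (pos a - e) (pos a' - (pos a + s a)) y
      have e3 : max (((pos a - e) + (pos a' - (pos a + s a))) % y) ((pos a' - e) % y) ≤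
          max ((pos a' - e) % y) ((pos a - e) % y + (pos a' - (pos a + s a)) % y) := by
        rw [max_comm]
        exact max_le_max le_rfl e2
      omega
    have hsumterm := Finset.sum_le_sum hterm
    rw [Finset.sum_add_distrib] at hsumterm
    rw [hsum]
    have hd : B * (pos a - e + (pos a' - (pos a + s a))) =
        B * (pos a - e) + B * (pos a' - (pos a + s a)) := by ring
    have hI2 : 2 * B * I = 2 * B * (I - (pos a - e)) + 2 * (B * (pos a - e)) := by
      obtain ⟨c, hc⟩ := Nat.exists_eq_add_of_le hIge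
      rw [hc]
      have : pos a - e + c - (pos a - e) = c := by omega
      rw [this]; ring
    rw [hI2, Nat.mul_add]
    rw [hd] at hst
    omega

lemma exists_sorted {ι : Type*} [DecidableEq ι] (pos s : ι → ℕ) (C : Finset ι)
    (hs : ∀ i ∈ C, 1 ≤ s i)
    (hd : ∀ i ∈ C, ∀ j ∈ C, i ≠ j → pos i + s i ≤ pos j ∨ pos j + s j ≤ pos i) :
    ∃ l : List ι, l.Nodup ∧ l.toFinset = C ∧ l.Pairwise (fun i j => pos i + s i ≤ pos j) := by
  induction C using Finset.strongInduction with
  | H C ih =>
    rcases C.eq_empty_or_nonempty with rfl | hne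
    · exact ⟨[], by simp, by simp, by simp⟩
    · obtain ⟨a, haC, hamin⟩ := Finset.exists_min_image C pos hne
      obtain ⟨l, hnd, hl, hpw⟩ := ih (C.erase a) (Finset.erase_ssubset haC)
        (fun i hi => hs i (Finset.mem_of_mem_erase hi))
        (fun i hi j hj hij => hd i (Finset.mem_of_mem_erase hi) j (Finset.mem_of_mem_erase hj) hij)
      refine ⟨a :: l, ?_, ?_, ?_⟩
      · rw [List.nodup_cons]
        refine ⟨?_, hnd⟩
        intro h
        have : a ∈ l.toFinset := by simpa using h
        rw [hl] at this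
        simp at this
      · rw [List.toFinset_cons, hl, Finset.insert_erase haC]
      · rw [List.pairwise_cons]
        refine ⟨?_, hpw⟩
        intro j hj
        have hj' : j ∈ C.erase a := by rw [← hl]; simpa using hj
        have hjC := Finset.mem_of_mem_erase hj'
        have hne' : a ≠ j := fun h => (Finset.ne_of_mem_erase hj') h.symm
        rcases hd a haC j hjC hne' with h | h
        · exact h
        · have h1 := hamin j hjC
          have h2 := hs j hjC
          omega

/-- The freezing lemma. -/
lemma freeze {ι : Type*} [DecidableEq ι] (pos s : ι → ℕ) (Y : Finset ℕ) (Q : ℕ → ℕ)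
    (A B K m : ℕ)
    (hstar : Star Y Q A B) (hK : ∀ x ∈ Y, x ≤ K) (hYne : Y.Nonempty) (hY1 : ∀ x ∈ Y, 1 ≤ x)
    (C : Finset ι) (hCY : ∀ i ∈ C, s i ∈ Y) (hCm : ∀ i ∈ C, pos i + s i ≤ m)
    (hd : ∀ i ∈ C, ∀ j ∈ C, i ≠ j → pos i + s i ≤ pos j ∨ pos j + s j ≤ pos i) :
    ∃ H ⊆ C, ∃ y ∈ Y, ∃ w : ℕ,
      (A * ∑ i ∈ C, s i ≤ 2 * (∑ y ∈ Y, Q y) * w + A * K + 2 * B * (m - ∑ i ∈ C, s i)) ∧
      ∀ (D : Finset ι) (f : ι → ℕ), Packed y D f 0 m → Avoids pos s y D f H →
        y * D.card + ∑ h ∈ H, s h + w ≤ m := by
  obtain ⟨l, hnd, hl, hpw⟩ := exists_sorted pos s C (fun i hi => hY1 _ (hCY i hi)) hd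
  have hmem : ∀ i, i ∈ l ↔ i ∈ C := by intro i; rw [← hl]; simp
  have hsum : ∑ i ∈ C, s i = (l.map s).sum := by
    rw [← hl, List.sum_toFinset s hnd]
  cases l with
  | nil =>
    obtain ⟨y, hy⟩ := hYne
    refine ⟨∅, by simp, y, hy, 0, ?_, ?_⟩
    · rw [hsum]; simp
    · intro D f hP _
      have := count_le y (hY1 y hy) D f 0 m (Nat.zero_le _) hP.1 hP.2
      simp
      omega
  | cons a t =>
    have hbd : ∀ i ∈ a :: t, pos i + s i ≤ m := fun i hi => hCm i ((hmem i).1 hi)
    have hpw' := hpw
    rw [List.pairwise_cons] at hpw'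
    have key : ∀ (l : List ι) (e' : ℕ), l.Pairwise (fun i j => pos i + s i ≤ pos j) →
        (∀ i ∈ l, e' ≤ pos i) → (∀ i ∈ l, pos i + s i ≤ m) → e' ≤ m →
        (l.map s).sum + e' ≤ m := by
      intro l
      induction l with
      | nil => intro e' _ _ _ h; simpa using h
      | cons c t iht =>
        intro e' hp hle hbb _
        rw [List.pairwise_cons] at hp
        have := iht (pos c + s c) hp.2 (fun i hi => hp.1 i hi)
          (fun i hi => hbb i (by simp [hi])) (hbb c (by simp))
        have h9 := hle c (by simp)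
        simp only [List.map_cons, List.sum_cons]
        omega
    have hle : ((a :: t).map s).sum ≤ m := by
      have := key (a :: t) 0 hpw (fun i _ => Nat.zero_le _) hbd (Nat.zero_le _)
      omega
    have h2 := claim2 pos s Y Q A B K m hstar hK t a 0 hpw
      (fun i hi => hCY i ((hmem i).1 hi)) (Nat.zero_le _) hbd (m - ((a :: t).map s).sum)
      (by omega)
    -- choose y and the parity
    have hex : ∃ y ∈ Y, A * ((a :: t).map s).sum ≤
        (∑ y ∈ Y, Q y) * (W pos s y 0 (a :: t) + W pos s y (pos a + s a) t) + A * K +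
          2 * B * (m - ((a :: t).map s).sum) := by
      by_contra hcon
      push Not at hcon
      -- the maximum of the W sums
      obtain ⟨y0, hy0, hmax⟩ := Finset.exists_max_image Y
        (fun y => W pos s y 0 (a :: t) + W pos s y (pos a + s a) t) hYne
      have h3 : ∑ y ∈ Y, Q y * (W pos s y 0 (a :: t) + W pos s y (pos a + s a) t) ≤
          (∑ y ∈ Y, Q y) * (W pos s y0 0 (a :: t) + W pos s y0 (pos a + s a) t) := by
        rw [Finset.sum_mul]
        apply Finset.sum_le_sum
        intro y hy
        exact Nat.mul_le_mul_left _ (hmax y hy)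
      have h4 := hcon y0 hy0
      omega
    obtain ⟨y, hy, hyy⟩ := hex
    have hy1 : 0 < y := hY1 y hy
    rcases le_total (W pos s y (pos a + s a) t) (W pos s y 0 (a :: t)) with hc | hc
    · obtain ⟨H, hHs, hH⟩ := claim1 pos s y hy1 m (a :: t).length (a :: t) le_rfl 0 hpw
        (fun i _ => Nat.zero_le _) hbd (Nat.zero_le _)
      refine ⟨H, ?_, y, hy, W pos s y 0 (a :: t), ?_, ?_⟩
      · rw [hl] at hHs; exact hHs
      · rw [hsum]
        have : (∑ y ∈ Y, Q y) * (W pos s y 0 (a :: t) + W pos s y (pos a + s a) t) ≤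
            2 * (∑ y ∈ Y, Q y) * W pos s y 0 (a :: t) := by
          have h5 : W pos s y 0 (a :: t) + W pos s y (pos a + s a) t ≤
            2 * W pos s y 0 (a :: t) := by omega
          calc _ ≤ (∑ y ∈ Y, Q y) * (2 * W pos s y 0 (a :: t)) := Nat.mul_le_mul_left _ h5
            _ = _ := by ring
        omega
      · intro D f hP hA
        have := hH D f hP hA
        omega
    · obtain ⟨H, hHs, hH⟩ := claim1 pos s y hy1 m t.length t le_rfl (pos a + s a) hpw'.2
        (fun i hi => hpw'.1 i hi) (fun i hi => hbd i (by simp [hi])) (hbd a (by simp))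
      refine ⟨insert a H, ?_, y, hy, W pos s y (pos a + s a) t, ?_, ?_⟩
      · intro x hx
        rw [Finset.mem_insert] at hx
        rcases hx with rfl | hx
        · exact (hmem _).1 (by simp)
        · have := hHs hx
          rw [List.mem_toFinset] at this
          exact (hmem _).1 (by simp [this])
      · rw [hsum]
        have : (∑ y ∈ Y, Q y) * (W pos s y 0 (a :: t) + W pos s y (pos a + s a) t) ≤
            2 * (∑ y ∈ Y, Q y) * W pos s y (pos a + s a) t := by
          have h5 : W pos s y 0 (a :: t) + W pos s y (pos a + s a) t ≤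
            2 * W pos s y (pos a + s a) t := by omega
          calc _ ≤ (∑ y ∈ Y, Q y) * (2 * W pos s y (pos a + s a) t) := Nat.mul_le_mul_left _ h5
            _ = _ := by ring
        omega
      · intro D f hP hA
        have hD2 : Packed y (D.filter (fun x => pos a + s a ≤ f x ∧ f x + y ≤ m)) f
            (pos a + s a) m := by
          refine ⟨fun d hd => (Finset.mem_filter.mp hd).2, fun d hd d' hd' hne => ?_⟩
          exact hP.2 d (Finset.mem_filter.mp hd).1 d' (Finset.mem_filter.mp hd').1 hne
        have hA2 : Avoids pos s y (D.filter (fun x => pos a + s a ≤ f x ∧ f x + y ≤ m)) f H :=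
          fun d hd h hh => hA d (Finset.mem_filter.mp hd).1 h (Finset.mem_insert_of_mem hh)
        have hr := hH _ f hD2 hA2
        have hl1 := count_filter y hy1 D f 0 m 0 (pos a) hP (Nat.zero_le _)
        have hcover : D ⊆ (D.filter (fun x => 0 ≤ f x ∧ f x + y ≤ pos a)) ∪
            (D.filter (fun x => pos a + s a ≤ f x ∧ f x + y ≤ m)) := by
          intro d hd
          rw [Finset.mem_union, Finset.mem_filter, Finset.mem_filter]
          have q1 := hP.1 d hd
          rcases hA d hd a (Finset.mem_insert_self _ _) with q | q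
          · left; exact ⟨hd, q1.1, q⟩
          · right; exact ⟨hd, q, q1.2⟩
        have hcc := (Finset.card_le_card hcover).trans (Finset.card_union_le _ _)
        have hcc2 := Nat.mul_le_mul_left y hcc
        rw [Nat.mul_add] at hcc2
        have hs := sum_insert_le_nat a H s
        omega


lemma makespan_le {n : ℕ} (t : Fin n → ℝ) (σ : Schedule n) (x : ℝ) (hx : 0 ≤ x)
    (h : ∀ j, σ.start j + t j ≤ x) : makespan t σ ≤ x := by
  unfold makespan
  exact Real.iSup_le h hx

lemma le_makespan {n : ℕ} (t : Fin n → ℝ) (σ : Schedule n) (j : Fin n) :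
    σ.start j + t j ≤ makespan t σ := by
  unfold makespan
  exact le_ciSup (f := fun j => σ.start j + t j) (Set.finite_range _).bddAbove j

lemma makespan_nonneg {m n : ℕ} (s : Fin n → ℕ) (t : Fin n → ℝ) (σ : Schedule n)
    (hv : Valid m s t) (hf : Feasible m s t σ) : 0 ≤ makespan t σ := by
  unfold makespan
  apply Real.iSup_nonneg
  intro j
  exact add_nonneg (hf.1 j) (hv.2 j)

lemma OPT_bdd {m n : ℕ} (s : Fin n → ℕ) (t : Fin n → ℝ) (hv : Valid m s t) :
    BddBelow {x | ∃ σ : Schedule n, Feasible m s t σ ∧ makespan t σ = x} := by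
  refine ⟨0, ?_⟩
  rintro x ⟨σ, hσ, rfl⟩
  exact makespan_nonneg s t σ hv hσ

lemma OPT_le {m n : ℕ} (s : Fin n → ℕ) (t : Fin n → ℝ) (hv : Valid m s t) (σ : Schedule n)
    (hσ : Feasible m s t σ) (x : ℝ) (hx : 0 ≤ x) (h : ∀ j, σ.start j + t j ≤ x) :
    OPT m s t ≤ x :=
  (csInf_le (OPT_bdd s t hv) ⟨σ, hσ, rfl⟩).trans (makespan_le t σ x hx h)

lemma OPT_nonneg {m n : ℕ} (s : Fin n → ℕ) (t : Fin n → ℝ) (hv : Valid m s t) :
    0 ≤ OPT m s t := by
  unfold OPT
  apply Real.sInf_nonneg
  rintro x ⟨σ, hσ, rfl⟩
  exact makespan_nonneg s t σ hv hσ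

/-- Greedy shelf packing. -/
lemma shelf {ι : Type*} [DecidableEq ι] (s : ι → ℕ) (K M : ℕ) (hKM : K ≤ M) (U : Finset ι)
    (hs : ∀ j ∈ U, s j ≤ K) :
    ∃ (sh po : ι → ℕ) (h u : ℕ),
      (∀ j ∈ U, sh j ≤ h ∧ po j + s j ≤ M ∧ (sh j = h → po j + s j ≤ u)) ∧
      (∀ i ∈ U, ∀ j ∈ U, i ≠ j → sh i = sh j → po i + s i ≤ po j ∨ po j + s j ≤ po i) ∧
      h * (M - K + 1) + u ≤ ∑ j ∈ U, s j ∧ u ≤ M := by
  induction U using Finset.induction_on with
  | empty => exact ⟨fun _ => 0, fun _ => 0, 0, 0, by simp, by simp, by simp, by simp⟩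
  | insert a U ha ih =>
    obtain ⟨sh, po, h, u, h1, h2, h3, h4⟩ := ih (fun j hj => hs j (Finset.mem_insert_of_mem hj))
    have hsa := hs a (Finset.mem_insert_self _ _)
    by_cases hc : u + s a ≤ M
    · refine ⟨Function.update sh a h, Function.update po a u, h, u + s a, ?_, ?_, ?_, hc⟩
      · intro j hj
        by_cases hja : j = a
        · subst hja
          simp only [Function.update_self]
          exact ⟨le_rfl, hc, fun _ => le_rfl⟩
        · have hj' := (Finset.mem_insert.mp hj).resolve_left hja
          simp only [Function.update_of_ne hja]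
          obtain ⟨q1, q2, q3⟩ := h1 j hj'
          exact ⟨q1, q2, fun h => by have := q3 h; omega⟩
      · intro i hi j hj hij
        by_cases hia : i = a
        · subst hia
          have hji : j ≠ i := fun h => hij h.symm
          have hj' := (Finset.mem_insert.mp hj).resolve_left hji
          simp only [Function.update_self, Function.update_of_ne hji]
          intro hsh
          right
          exact (h1 j hj').2.2 hsh.symm
        · have hi' := (Finset.mem_insert.mp hi).resolve_left hia
          by_cases hja : j = a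
          · subst hja
            simp only [Function.update_self, Function.update_of_ne hia]
            intro hsh
            left
            exact (h1 i hi').2.2 hsh
          · have hj' := (Finset.mem_insert.mp hj).resolve_left hja
            simp only [Function.update_of_ne hja, Function.update_of_ne hia]
            exact h2 i hi' j hj' hij
      · rw [Finset.sum_insert ha]; omega
    · refine ⟨Function.update sh a (h+1), Function.update po a 0, h + 1, s a, ?_, ?_, ?_, by omega⟩
      · intro j hj
        by_cases hja : j = a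
        · subst hja
          simp only [Function.update_self]
          exact ⟨le_rfl, by omega, fun _ => by omega⟩
        · have hj' := (Finset.mem_insert.mp hj).resolve_left hja
          simp only [Function.update_of_ne hja]
          obtain ⟨q1, q2, q3⟩ := h1 j hj'
          exact ⟨by omega, q2, fun h => by omega⟩
      · intro i hi j hj hij
        by_cases hia : i = a
        · subst hia
          have hji : j ≠ i := fun h => hij h.symm
          have hj' := (Finset.mem_insert.mp hj).resolve_left hji
          simp only [Function.update_self, Function.update_of_ne hji]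
          intro hsh
          have := (h1 j hj').1
          omega
        · have hi' := (Finset.mem_insert.mp hi).resolve_left hia
          by_cases hja : j = a
          · subst hja
            simp only [Function.update_self, Function.update_of_ne hia]
            intro hsh
            have := (h1 i hi').1
            omega
          · have hj' := (Finset.mem_insert.mp hj).resolve_left hja
            simp only [Function.update_of_ne hja, Function.update_of_ne hia]
            exact h2 i hi' j hj' hij
      · rw [Finset.sum_insert ha]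
        have : (h + 1) * (M - K + 1) = h * (M - K + 1) + (M - K + 1) := by ring
        omega

/-- Consecutive placement of finitely many segments. -/
lemma line_up {ι : Type*} [DecidableEq ι] (s : ι → ℕ) (a : ℕ) (L : Finset ι) :
    ∃ po : ι → ℕ, (∀ j ∈ L, a ≤ po j ∧ po j + s j ≤ a + ∑ i ∈ L, s i) ∧
      (∀ i ∈ L, ∀ j ∈ L, i ≠ j → po i + s i ≤ po j ∨ po j + s j ≤ po i) := by
  induction L using Finset.induction_on with
  | empty => exact ⟨fun _ => 0, by simp, by simp⟩
  | insert b L hb ih =>
    obtain ⟨po, h1, h2⟩ := ih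
    refine ⟨Function.update po b (a + ∑ i ∈ L, s i), ?_, ?_⟩
    · intro j hj
      rw [Finset.sum_insert hb]
      by_cases hjb : j = b
      · subst hjb
        simp only [Function.update_self]
        omega
      · have hj' := (Finset.mem_insert.mp hj).resolve_left hjb
        simp only [Function.update_of_ne hjb]
        have := h1 j hj'
        omega
    · intro i hi j hj hij
      by_cases hib : i = b
      · subst hib
        have hji : j ≠ i := fun h => hij h.symm
        have hj' := (Finset.mem_insert.mp hj).resolve_left hji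
        simp only [Function.update_self, Function.update_of_ne hji]
        right
        exact (h1 j hj').2
      · have hi' := (Finset.mem_insert.mp hi).resolve_left hib
        by_cases hjb : j = b
        · subst hjb
          simp only [Function.update_self, Function.update_of_ne hib]
          left
          exact (h1 i hi').2
        · have hj' := (Finset.mem_insert.mp hj).resolve_left hjb
          simp only [Function.update_of_ne hjb, Function.update_of_ne hib]
          exact h2 i hi' j hj' hij

/-- Upper bound for the optimum when the instance has unit jobs `U`, long jobs `L` of length at most `X`, and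
all other jobs of length zero. -/
lemma OPT_bound {m n : ℕ} (K : ℕ) (s : Fin n → ℕ) (t : Fin n → ℝ) (hv : Valid m s t)
    (U L : Finset (Fin n)) (hK : ∀ j ∈ U, s j ≤ K) (hU : ∀ j ∈ U, t j ≤ 1) (X : ℕ)
    (hUL : Disjoint U L)
    (hL : ∀ j ∈ L, t j ≤ X) (h0 : ∀ j, j ∉ U → j ∉ L → t j = 0)
    (hm : ∑ j ∈ L, s j + K ≤ m)
    (hX : ∑ j ∈ U, s j < X * (m - ∑ j ∈ L, s j - K + 1)) : OPT m s t ≤ X := by
  classical
  set M := m - ∑ j ∈ L, s j with hM
  obtain ⟨sh, po, h, u, h1, h2, h3, h4⟩ := shelf s K M (by omega) U hK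
  obtain ⟨po', h1', h2'⟩ := line_up s M L
  have hhX : h + 1 ≤ X := by
    by_contra hcon
    have : X ≤ h := by omega
    have := Nat.mul_le_mul_right (M - K + 1) this
    omega
  let σ : Schedule n :=
    { start := fun j => if j ∈ U then (sh j : ℝ) else 0
      pos := fun j => if j ∈ U then po j else if j ∈ L then po' j else 0 }
  have hst : ∀ j, σ.start j = if j ∈ U then (sh j : ℝ) else 0 := fun j => rfl
  have hpo : ∀ j, σ.pos j = if j ∈ U then po j else if j ∈ L then po' j else 0 := fun j => rfl
  have hUnotL : ∀ j ∈ U, j ∉ L := fun j hj hj' => (Finset.disjoint_left.mp hUL) hj hj'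
  apply OPT_le s t hv σ
  · refine ⟨?_, ?_, ?_⟩
    · intro j
      rw [hst]
      split_ifs
      · positivity
      · exact le_rfl
    · intro j
      rw [hpo]
      split_ifs with c1 c2
      · have := (h1 j c1).2.1
        omega
      · have := (h1' j c2).2
        omega
      · have := (hv.1 j).2
        omega
    · intro i j hij τ a1 a2 a3 a4
      rw [hst] at a1 a2 a3 a4
      rw [hpo, hpo]
      by_cases ci : i ∈ U
      · rw [if_pos ci] at a1 a2
        by_cases cj : j ∈ U
        · rw [if_pos cj] at a3 a4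
          rw [if_pos ci, if_pos cj]
          have b1 := hU i ci
          have b2 := hU j cj
          have e1 : (sh i : ℝ) < sh j + 1 := by linarith
          have e2 : (sh j : ℝ) < sh i + 1 := by linarith
          have e1' : sh i < sh j + 1 := by exact_mod_cast e1
          have e2' : sh j < sh i + 1 := by exact_mod_cast e2
          exact h2 i ci j cj hij (by omega)
        · rw [if_neg cj] at a3 a4
          by_cases cj' : j ∈ L
          · rw [if_pos ci, if_neg cj, if_pos cj']
            left
            have := (h1 i ci).2.1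
            have := (h1' j cj').1
            omega
          · have := h0 j cj cj'
            linarith
      · rw [if_neg ci] at a1 a2
        by_cases ci' : i ∈ L
        · by_cases cj : j ∈ U
          · rw [if_pos cj] at a3 a4
            rw [if_neg ci, if_pos ci', if_pos cj]
            right
            have := (h1 j cj).2.1
            have := (h1' i ci').1
            omega
          · rw [if_neg cj] at a3 a4
            by_cases cj' : j ∈ L
            · rw [if_neg ci, if_pos ci', if_neg cj, if_pos cj']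
              exact h2' i ci' j cj' hij
            · have := h0 j cj cj'
              linarith
        · have := h0 i ci ci'
          linarith
  · positivity
  · intro j
    rw [hst]
    split_ifs with c1
    · have := hU j c1
      have := (h1 j c1).1
      have e : (sh j : ℝ) + 1 ≤ X := by
        have : sh j + 1 ≤ X := by omega
        exact_mod_cast this
      linarith
    · by_cases c2 : j ∈ L
      · have := hL j c2
        linarith
      · rw [h0 j c1 c2]
        simp


/-- Two jobs both running just before time `T` occupy disjoint segments. -/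
lemma simul {m n : ℕ} (s : Fin n → ℕ) (t : Fin n → ℝ) (σ : Schedule n) (hf : Feasible m s t σ)
    (i j : Fin n) (hij : i ≠ j) (T : ℝ) (hi : σ.start i < T) (hj : σ.start j < T)
    (hi' : T ≤ σ.start i + t i) (hj' : T ≤ σ.start j + t j) :
    σ.pos i + s i ≤ σ.pos j ∨ σ.pos j + s j ≤ σ.pos i := by
  apply hf.2.2 i j hij (max (σ.start i) (σ.start j)) (le_max_left _ _) _ (le_max_right _ _)
  · exact lt_of_lt_of_le (max_lt hi hj) hj'
  · exact lt_of_lt_of_le (max_lt hi hj) hi'

lemma sum_le_of_disjoint {ι : Type*} [DecidableEq ι] (pos s : ι → ℕ) (C : Finset ι) (m : ℕ)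
    (hCm : ∀ i ∈ C, pos i + s i ≤ m)
    (hd : ∀ i ∈ C, ∀ j ∈ C, i ≠ j → pos i + s i ≤ pos j ∨ pos j + s j ≤ pos i) :
    ∑ i ∈ C, s i ≤ m := by
  have hcard : (C.biUnion (fun d => Finset.Ico (pos d) (pos d + s d))).card = ∑ d ∈ C, s d := by
    rw [Finset.card_biUnion]
    · apply Finset.sum_congr rfl
      intro d _
      simp
    · intro d hd' d' hd'' hne
      change Disjoint (Finset.Ico (pos d) (pos d + s d)) (Finset.Ico (pos d') (pos d' + s d'))
      rw [Finset.disjoint_left]
      intro a ha hb
      rw [Finset.mem_Ico] at ha hb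
      rcases hd d hd' d' hd'' hne with h | h <;> omega
  have hsub : C.biUnion (fun d => Finset.Ico (pos d) (pos d + s d)) ⊆ Finset.range m := by
    intro a ha
    rw [Finset.mem_biUnion] at ha
    obtain ⟨d, hd, hd2⟩ := ha
    rw [Finset.mem_Ico] at hd2
    rw [Finset.mem_range]
    have := hCm d hd
    omega
  have h3 := Finset.card_le_card hsub
  rw [hcard, Finset.card_range] at h3
  exact h3

section stage

open Classical in
/-- Jobs started before time `T`. -/
noncomputable def started {n : ℕ} (σ : Schedule n) (T : ℝ) : Finset (Fin n) :=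
  Finset.univ.filter (fun j => σ.start j < T)

open Classical in
/-- Jobs started during `[k - 1, k)`. -/
noncomputable def cfg {n : ℕ} (σ : Schedule n) (k : ℕ) : Finset (Fin n) :=
  Finset.univ.filter (fun j => (k : ℝ) - 1 ≤ σ.start j ∧ σ.start j < k)

lemma mem_started {n : ℕ} (σ : Schedule n) (T : ℝ) (j : Fin n) :
    j ∈ started σ T ↔ σ.start j < T := by
  simp [started]

lemma mem_cfg {n : ℕ} (σ : Schedule n) (k : ℕ) (j : Fin n) :
    j ∈ cfg σ k ↔ (k : ℝ) - 1 ≤ σ.start j ∧ σ.start j < k := by
  simp [cfg]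

lemma started_succ {n : ℕ} (s : Fin n → ℕ) (σ : Schedule n) (k : ℕ) :
    ∑ j ∈ started σ ((k + 1 : ℕ) : ℝ), s j = ∑ j ∈ started σ (k : ℝ), s j + ∑ j ∈ cfg σ (k + 1), s j := by
  classical
  have hU : started σ ((k + 1 : ℕ) : ℝ) = started σ (k : ℝ) ∪ cfg σ (k + 1) := by
    ext j
    rw [Finset.mem_union, mem_started, mem_started, mem_cfg]
    push_cast
    constructor
    · intro h
      by_cases h' : σ.start j < k
      · left; exact h'
      · right
        push Not at h'
        exact ⟨by linarith, h⟩
    · rintro (h | h)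
      · linarith
      · exact h.2
  have hD : Disjoint (started σ (k : ℝ)) (cfg σ (k + 1)) := by
    rw [Finset.disjoint_left]
    intro j h1 h2
    rw [mem_started] at h1
    rw [mem_cfg] at h2
    push_cast at h2
    linarith [h2.1]
  rw [hU, Finset.sum_union hD]

lemma started_zero {m n : ℕ} (s : Fin n → ℕ) (t : Fin n → ℝ) (σ : Schedule n)
    (hf : Feasible m s t σ) : ∑ j ∈ started σ ((0 : ℕ) : ℝ), s j = 0 := by
  have : started σ ((0 : ℕ) : ℝ) = ∅ := by
    ext j
    rw [mem_started]
    have := hf.1 j
    simp only [Nat.cast_zero, Finset.notMem_empty, iff_false]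
    linarith
  rw [this]; simp

lemma cfg_disjoint {m n : ℕ} (s : Fin n → ℕ) (σ : Schedule n)
    (hf : Feasible m s (fun _ => 1) σ) (k : ℕ) :
    ∀ i ∈ cfg σ k, ∀ j ∈ cfg σ k, i ≠ j → σ.pos i + s i ≤ σ.pos j ∨ σ.pos j + s j ≤ σ.pos i := by
  intro i hi j hj hij
  rw [mem_cfg] at hi hj
  exact simul s (fun _ => 1) σ hf i j hij k hi.2 hj.2 (by linarith [hi.1]) (by linarith [hj.1])

lemma cfg_le {m n : ℕ} (s : Fin n → ℕ) (σ : Schedule n)
    (hf : Feasible m s (fun _ => 1) σ) (k : ℕ) : ∑ j ∈ cfg σ k, s j ≤ m :=
  sum_le_of_disjoint σ.pos s _ m (fun i _ => hf.2.1 i) (cfg_disjoint s σ hf k)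

lemma G_le {m n : ℕ} (s : Fin n → ℕ) (σ : Schedule n)
    (hf : Feasible m s (fun _ => 1) σ) (k : ℕ) : ∑ j ∈ started σ (k : ℝ), s j ≤ m * k := by
  induction k with
  | zero => rw [started_zero s _ σ hf]; simp
  | succ k ih =>
    rw [started_succ]
    have := cfg_le s σ hf (k + 1)
    rw [Nat.mul_succ]
    omega

lemma card_le_sum {ι : Type*} (s : ι → ℕ) (C : Finset ι) (h : ∀ i ∈ C, 1 ≤ s i) :
    C.card ≤ ∑ i ∈ C, s i := by
  have := Finset.card_nsmul_le_sum C s 1 h
  simpa using this

/-- If the adversary stops the input at time `k`. -/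
lemma stop {m n : ℕ} (A : OnlineAlg m) (hA : A.Competitive (13 / 6)) (K : ℕ) (s : Fin n → ℕ)
    (hs1 : ∀ j, 1 ≤ s j) (hsK : ∀ j, s j ≤ K) (hKm : 2 * K < m) (k : ℕ)
    (hn : m * k < n) :
    6 * k * (m - 2 * K) ≤
      7 * (∑ j ∈ started (A.run n s (fun _ => 1)) (k : ℝ), s j) + 7 * (m - 2 * K) := by
  classical
  set σ := A.run n s (fun _ => 1) with hσ
  have hv0 : Valid m s (fun _ => (1 : ℝ)) :=
    ⟨fun j => ⟨hs1 j, by have := hsK j; omega⟩, fun _ => zero_le_one⟩
  have hf0 := A.feasible n s _ hv0
  set G := ∑ j ∈ started σ (k : ℝ), s j with hG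
  have hGle : G ≤ m * k := G_le s σ hf0 k
  have hcard : (started σ (k : ℝ)).card ≤ G := card_le_sum s _ (fun i _ => hs1 i)
  obtain ⟨j0, hj0⟩ : ∃ j0, j0 ∉ started σ (k : ℝ) := by
    by_contra hcon
    push Not at hcon
    have : started σ (k : ℝ) = Finset.univ := by
      ext j; simp [hcon j]
    rw [this] at hcard
    simp at hcard
    omega
  have hj0' : (k : ℝ) ≤ σ.start j0 := by
    rw [mem_started] at hj0
    push Not at hj0
    exact hj0
  set X : ℕ := G / (m - 2 * K) + 1 with hX
  let t' : Fin n → ℝ := fun j => if σ.start j < k then 1 else if j = j0 then (X : ℝ) else 0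
  have ht' : ∀ j, t' j = if σ.start j < k then 1 else if j = j0 then (X : ℝ) else 0 := fun j => rfl
  have hv' : Valid m s t' := by
    refine ⟨hv0.1, fun j => ?_⟩
    rw [ht']
    split_ifs <;> positivity
  have hna := A.nonanticipating n s (fun _ => 1) t' hv0 hv' k
    (by
      intro j hj
      have : σ.start j < k := by
        have hj' : σ.start j + 1 < k := hj
        linarith
      rw [ht', if_pos this])
    (by
      intro j hj hj'
      have : σ.start j < k := hj
      rw [ht', if_pos this]
      exact hj')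
  have h1 := (hna j0).2 hj0'
  have h2 := le_makespan t' (A.run n s t') j0
  have h3 : t' j0 = X := by
    rw [ht', if_neg (not_lt.mpr hj0'), if_pos rfl]
  have h4 := hA n s t' hv'
  have h5 : OPT m s t' ≤ X := by
    apply OPT_bound K s t' hv' (started σ (k : ℝ)) {j0} (fun j _ => hsK j)
    · intro j hj
      rw [mem_started] at hj
      rw [ht', if_pos hj]
    · rw [Finset.disjoint_singleton_right]; exact hj0
    · intro j hj
      rw [Finset.mem_singleton] at hj
      rw [hj, h3]
    · intro j hj hj'
      rw [mem_started] at hj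
      rw [Finset.mem_singleton] at hj'
      rw [ht', if_neg hj, if_neg hj']
    · rw [Finset.sum_singleton]
      have := hsK j0
      omega
    · rw [Finset.sum_singleton]
      have h6 : G < X * (m - 2 * K) := by
        rw [hX, Nat.add_mul, one_mul]
        have := Nat.div_add_mod G (m - 2 * K)
        have := Nat.mod_lt G (show 0 < m - 2 * K by omega)
        rw [mul_comm]
        omega
      have h7 : X * (m - 2 * K) ≤ X * (m - s j0 - K + 1) := by
        apply Nat.mul_le_mul_left
        have := hsK j0
        omega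
      exact lt_of_lt_of_le h6 h7
  have h6 : (k : ℝ) + X ≤ 13 / 6 * X := by
    have : (13 / 6 : ℝ) * OPT m s t' ≤ 13 / 6 * X := by
      apply mul_le_mul_of_nonneg_left h5; norm_num
    rw [h3] at h2
    linarith
  have h7 : 6 * k ≤ 7 * X := by
    have : (6 : ℝ) * k ≤ 7 * X := by linarith
    exact_mod_cast this
  have h8 : 6 * k * (m - 2 * K) ≤ 7 * X * (m - 2 * K) := Nat.mul_le_mul_right _ h7
  have h9 : X * (m - 2 * K) ≤ G + (m - 2 * K) := by
    rw [hX, Nat.add_mul, one_mul]
    have := Nat.div_mul_le_self G (m - 2 * K)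
    omega
  calc _ ≤ 7 * X * (m - 2 * K) := h8
    _ = 7 * (X * (m - 2 * K)) := by ring
    _ ≤ 7 * (G + (m - 2 * K)) := Nat.mul_le_mul_left _ h9
    _ = _ := by ring


/-- If the adversary freezes part of the configuration at time `k`. -/
lemma freeze_stage {m n : ℕ} (A : OnlineAlg m) (hA : A.Competitive (13 / 6))
    (Y : Finset ℕ) (Q : ℕ → ℕ) (a B K : ℕ) (hstar : Star Y Q a B) (hYne : Y.Nonempty)
    (hY : ∀ x ∈ Y, 1 ≤ x ∧ x ≤ K) (hKm : K ≤ m)
    (s : Fin n → ℕ) (hs : ∀ j, s j ∈ Y) (k N : ℕ)
    (hN : ∀ y ∈ Y, N ≤ (Finset.univ.filter (fun j => s j = y)).card)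
    (hN2 : m * k + m * (m * k + 2) < N) :
    ∃ w : ℕ, (a * (∑ j ∈ cfg (A.run n s (fun _ => 1)) k, s j) ≤ 2 * (∑ y ∈ Y, Q y) * w + a * K +
        2 * B * (m - ∑ j ∈ cfg (A.run n s (fun _ => 1)) k, s j)) ∧
      6 * (w - 2 * K) * (k - 2) ≤ ∑ j ∈ started (A.run n s (fun _ => 1)) (k : ℝ), s j := by
  classical
  set σ := A.run n s (fun _ => 1) with hσ
  have hs1 : ∀ j, 1 ≤ s j := fun j => (hY _ (hs j)).1
  have hsK : ∀ j, s j ≤ K := fun j => (hY _ (hs j)).2
  have hv0 : Valid m s (fun _ => (1 : ℝ)) :=
    ⟨fun j => ⟨hs1 j, by have := hsK j; omega⟩, fun _ => zero_le_one⟩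
  have hf0 := A.feasible n s _ hv0
  obtain ⟨H, hHC, y, hy, w, hw1, hw2⟩ := freeze σ.pos s Y Q a B K m hstar
    (fun x hx => (hY x hx).2) hYne (fun x hx => (hY x hx).1) (cfg σ k)
    (fun i _ => hs i) (fun i _ => hf0.2.1 i) (cfg_disjoint s σ hf0 k)
  refine ⟨w, hw1, ?_⟩
  set G := ∑ j ∈ started σ (k : ℝ), s j with hG
  have hGle : G ≤ m * k := G_le s σ hf0 k
  rcases Nat.lt_or_ge (2 * K) w with hwK | hwK
  swap
  · have : w - 2 * K = 0 := by omega
    rw [this]; simp
  set d := w - 2 * K with hd
  have hd1 : 1 ≤ d := by omega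
  obtain ⟨g, hgd, hgd2, hgG⟩ : ∃ g : ℕ, g * d ≤ G ∧ G < (g + 1) * d ∧ g ≤ G := by
    refine ⟨G / d, Nat.div_mul_le_self _ _, ?_, Nat.div_le_self _ _⟩
    rw [Nat.add_mul, one_mul]
    have := Nat.div_add_mod G d
    have := Nat.mod_lt G (show 0 < d by omega)
    rw [mul_comm (G / d) d]
    omega
  obtain ⟨L, hL⟩ : ∃ L : ℕ, L = g + 2 := ⟨_, rfl⟩
  have hL2 : g ≤ m * k := hgG.trans hGle
  have hHw : ∑ h ∈ H, s h + w ≤ m := by
    have := hw2 ∅ (fun _ => 0) ⟨by simp, by simp⟩ (fun d hd => by simp at hd)
    simpa using this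
  have hHcfg : ∀ h ∈ H, (k : ℝ) - 1 ≤ σ.start h ∧ σ.start h < k :=
    fun h hh => (mem_cfg σ k h).1 (hHC hh)
  have hLr : (1 : ℝ) ≤ L := by
    have : 1 ≤ L := by omega
    exact_mod_cast this
  -- stage 1
  let t1 : Fin n → ℝ := fun j => if j ∈ H then (L : ℝ) else if σ.start j < k then 1 else
    if s j = y then 1 else 0
  have ht1 : ∀ j, t1 j = if j ∈ H then (L : ℝ) else if σ.start j < k then 1 else
    if s j = y then 1 else 0 := fun j => rfl
  have hv1 : Valid m s t1 := by
    refine ⟨hv0.1, fun j => ?_⟩
    rw [ht1]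
    split_ifs <;> positivity
  have hna1 := A.nonanticipating n s (fun _ => 1) t1 hv0 hv1 k
    (by
      intro j hj
      have hj' : σ.start j + 1 < k := hj
      have h1 : σ.start j < k := by linarith
      have h2 : j ∉ H := fun hh => by linarith [(hHcfg j hh).1]
      rw [ht1, if_neg h2, if_pos h1])
    (by
      intro j hj hj'
      have h1 : σ.start j < k := hj
      have h2 : (k : ℝ) ≤ σ.start j + 1 := hj'
      rw [ht1]
      by_cases h3 : j ∈ H
      · rw [if_pos h3]
        change (k : ℝ) ≤ σ.start j + L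
        linarith
      · rw [if_neg h3, if_pos h1]
        exact h2)
  set σ1 := A.run n s t1 with hσ1
  have hf1 := A.feasible n s t1 hv1
  have hsame : ∀ j, σ.start j < k → σ1.start j = σ.start j ∧ σ1.pos j = σ.pos j :=
    fun j hj => (hna1 j).1 hj
  have hlate : ∀ j, (k : ℝ) ≤ σ.start j → (k : ℝ) ≤ σ1.start j :=
    fun j hj => (hna1 j).2 hj
  -- jobs of width `y` started in `[k, k + r)` in stage 1
  let E : ℕ → Finset (Fin n) := fun r => Finset.univ.filter
    (fun j => s j = y ∧ (k : ℝ) ≤ σ1.start j ∧ σ1.start j < (k : ℝ) + r)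
  have hEmem : ∀ r j, j ∈ E r ↔ s j = y ∧ (k : ℝ) ≤ σ1.start j ∧ σ1.start j < (k : ℝ) + r := by
    intro r j
    simp [E]
  have hEbound : ∀ r : ℕ, r + 1 ≤ L → y * (E r).card ≤ r * (m - ∑ h ∈ H, s h - w) := by
    intro r
    induction r with
    | zero =>
      intro _
      have : E 0 = ∅ := by
        ext j
        rw [hEmem]
        simp only [Nat.cast_zero, add_zero, Finset.notMem_empty, iff_false]
        rintro ⟨_, h1, h2⟩
        linarith
      rw [this]; simp
    | succ r ih =>
      intro hr
      have ih' := ih (by omega)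
      let D : Finset (Fin n) := Finset.univ.filter
        (fun j => s j = y ∧ (k : ℝ) + r ≤ σ1.start j ∧ σ1.start j < (k : ℝ) + r + 1)
      have hDmem : ∀ j, j ∈ D ↔ s j = y ∧ (k : ℝ) + r ≤ σ1.start j ∧
          σ1.start j < (k : ℝ) + r + 1 := by
        intro j
        simp [D]
      have hsub : E (r + 1) ⊆ E r ∪ D := by
        intro j hj
        rw [hEmem] at hj
        rw [Finset.mem_union, hEmem, hDmem]
        obtain ⟨c1, c2, c3⟩ := hj
        push_cast at c3
        by_cases hc : σ1.start j < (k : ℝ) + r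
        · left; exact ⟨c1, c2, hc⟩
        · right
          push Not at hc
          exact ⟨c1, hc, by linarith⟩
      have hrr : (0 : ℝ) ≤ r := by positivity
      have hDt : ∀ j ∈ D, t1 j = 1 := by
        intro j hj
        rw [hDmem] at hj
        have h1 : ¬ σ.start j < k := by
          intro h
          have := (hsame j h).1
          linarith [hj.2.1]
        have h2 : j ∉ H := fun hh => h1 (hHcfg j hh).2
        rw [ht1, if_neg h2, if_neg h1, if_pos hj.1]
      have hDb := hw2 D σ1.pos ?_ ?_
      · have hcc := (Finset.card_le_card hsub).trans (Finset.card_union_le _ _)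
        have hcc2 := Nat.mul_le_mul_left y hcc
        rw [Nat.mul_add] at hcc2
        rw [Nat.add_mul, one_mul]
        omega
      · refine ⟨fun j hj => ⟨Nat.zero_le _, ?_⟩, fun j hj j' hj' hne => ?_⟩
        · have := hf1.2.1 j
          rw [((hDmem j).1 hj).1] at this
          exact this
        · have h1 := (hDmem j).1 hj
          have h2 := (hDmem j').1 hj'
          have := simul s t1 σ1 hf1 j j' hne ((k : ℝ) + r + 1) h1.2.2 h2.2.2
            (by rw [hDt j hj]; linarith [h1.2.1]) (by rw [hDt j' hj']; linarith [h2.2.1])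
          rw [h1.1, h2.1] at this
          exact this
      · intro j hj h hh
        have h1 := (hDmem j).1 hj
        have h2 := hHcfg h hh
        have h3 := hsame h h2.2
        have hne : j ≠ h := by
          rintro rfl
          have := h1.2.1
          rw [h3.1] at this
          linarith [h2.2]
        have hth : t1 h = L := by rw [ht1, if_pos hh]
        have hLr2 : (r : ℝ) + 2 ≤ L := by
          have : r + 2 ≤ L := by omega
          exact_mod_cast this
        have := simul s t1 σ1 hf1 j h hne ((k : ℝ) + r + 1) h1.2.2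
          (by rw [h3.1]; linarith [h2.2]) (by rw [hDt j hj]; linarith [h1.2.1])
          (by rw [h3.1, hth]; linarith [h2.1])
        rw [h1.1, h3.2] at this
        exact this
  have hE := hEbound (L - 1) (by omega)
  -- a job of width `y` not yet started at time `k + (L - 1)`
  have hLcast : ((L - 1 : ℕ) : ℝ) = (L : ℝ) - 1 := by
    rw [Nat.cast_sub (by omega)]; simp
  have hy1 : 1 ≤ y := (hY y hy).1
  obtain ⟨j0, hj0y, hj0⟩ : ∃ j0, s j0 = y ∧ (k : ℝ) + (L - 1 : ℕ) ≤ σ1.start j0 := by
    by_contra hcon
    push Not at hcon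
    have hsub : (Finset.univ.filter (fun j => s j = y)) ⊆ started σ (k : ℝ) ∪ E (L - 1) := by
      intro j hj
      rw [Finset.mem_filter] at hj
      rw [Finset.mem_union, mem_started, hEmem]
      by_cases hc : σ.start j < k
      · left; exact hc
      · right
        push Not at hc
        exact ⟨hj.2, hlate j hc, hcon j hj.2⟩
    have h1 := (Finset.card_le_card hsub).trans (Finset.card_union_le _ _)
    have h2 := hN y hy
    have h3 : (started σ (k : ℝ)).card ≤ G := card_le_sum s _ (fun i _ => hs1 i)
    have h4 : (E (L - 1)).card ≤ y * (E (L - 1)).card := Nat.le_mul_of_pos_left _ hy1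
    have h5 : (L - 1) * (m - ∑ h ∈ H, s h - w) ≤ (m * k + 2) * m := by
      apply Nat.mul_le_mul <;> omega
    have h6 : (m * k + 2) * m = m * (m * k + 2) := Nat.mul_comm _ _
    omega
  -- stage 2
  let t2 : Fin n → ℝ := fun j => if σ1.start j < (k : ℝ) + (L - 1 : ℕ) then t1 j else
    if j = j0 then (L : ℝ) else 0
  have ht2 : ∀ j, t2 j = if σ1.start j < (k : ℝ) + (L - 1 : ℕ) then t1 j else
    if j = j0 then (L : ℝ) else 0 := fun j => rfl
  have hv2 : Valid m s t2 := by
    refine ⟨hv0.1, fun j => ?_⟩
    rw [ht2]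
    split_ifs
    · exact hv1.2 j
    · positivity
    · exact le_rfl
  have hna2 := A.nonanticipating n s t1 t2 hv1 hv2 ((k : ℝ) + (L - 1 : ℕ))
    (by
      intro j hj
      have hj' : σ1.start j + t1 j < (k : ℝ) + (L - 1 : ℕ) := hj
      have : σ1.start j < (k : ℝ) + (L - 1 : ℕ) := by
        have := hv1.2 j
        linarith
      rw [ht2, if_pos this])
    (by
      intro j hj hj'
      have : σ1.start j < (k : ℝ) + (L - 1 : ℕ) := hj
      rw [ht2, if_pos this]
      exact hj')
  have g1 := (hna2 j0).2 hj0
  have g2 := le_makespan t2 (A.run n s t2) j0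
  have g3 : t2 j0 = L := by
    rw [ht2, if_neg (not_lt.mpr hj0), if_pos rfl]
  have g4 := hA n s t2 hv2
  have hkL : (k : ℝ) ≤ (k : ℝ) + (L - 1 : ℕ) := by
    have : (0 : ℝ) ≤ ((L - 1 : ℕ) : ℝ) := by positivity
    linarith
  have hj0H : j0 ∉ H := by
    intro hh
    have h2 := hHcfg j0 hh
    have h3 := hsame j0 h2.2
    rw [h3.1] at hj0
    linarith [h2.2]
  have hkL1 : (k : ℝ) < (k : ℝ) + (L - 1 : ℕ) := by
    have : (1 : ℝ) ≤ ((L - 1 : ℕ) : ℝ) := by
      have : 1 ≤ L - 1 := by omega
      exact_mod_cast this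
    linarith
  have hUnion : Disjoint (started σ (k : ℝ) \ H) (E (L - 1)) := by
    rw [Finset.disjoint_left]
    intro j h1 h2
    rw [Finset.mem_sdiff, mem_started] at h1
    rw [hEmem] at h2
    have := (hsame j h1.1).1
    linarith [h2.2.1]
  have hHst : H ⊆ started σ (k : ℝ) := by
    intro h hh
    rw [mem_started]
    exact (hHcfg h hh).2
  have g5 : OPT m s t2 ≤ L := by
    apply OPT_bound K s t2 hv2 ((started σ (k : ℝ) \ H) ∪ E (L - 1)) (insert j0 H)
      (fun j _ => hsK j)
    · intro j hj
      rw [Finset.mem_union, Finset.mem_sdiff, mem_started, hEmem] at hj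
      rcases hj with ⟨h1, h2⟩ | ⟨h1, h2, h3⟩
      · have h3 := (hsame j h1).1
        rw [ht2, if_pos (by rw [h3]; linarith), ht1, if_neg h2, if_pos h1]
      · have h4 : ¬ σ.start j < k := by
          intro h
          have := (hsame j h).1
          linarith
        have h5 : j ∉ H := fun hh => h4 (hHcfg j hh).2
        rw [ht2, if_pos h3, ht1, if_neg h5, if_neg h4, if_pos h1]
    · rw [Finset.disjoint_left]
      intro j h1 h2
      rw [Finset.mem_union, Finset.mem_sdiff, mem_started, hEmem] at h1
      rw [Finset.mem_insert] at h2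
      rcases h2 with rfl | h2
      · rcases h1 with h1 | h1
        · have h3 := (hsame j h1.1).1
          rw [h3] at hj0
          linarith [h1.1]
        · linarith [h1.2.2]
      · rcases h1 with h1 | h1
        · exact h1.2 h2
        · have h3 := hHcfg j h2
          have h4 := (hsame j h3.2).1
          linarith [h1.2.1, h3.2]
    · intro j hj
      rw [Finset.mem_insert] at hj
      rcases hj with rfl | hj
      · rw [g3]
      · have h3 := hHcfg j hj
        have h4 := (hsame j h3.2).1
        rw [ht2, if_pos (by rw [h4]; linarith [h3.2]), ht1, if_pos hj]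
    · intro j hj hj'
      rw [Finset.mem_union, Finset.mem_sdiff, mem_started, hEmem] at hj
      rw [Finset.mem_insert] at hj'
      push Not at hj hj'
      rw [ht2]
      by_cases h1 : σ1.start j < (k : ℝ) + (L - 1 : ℕ)
      · rw [if_pos h1]
        have h2 : ¬ σ.start j < k := fun h => hj'.2 (hj.1 h)
        rw [ht1, if_neg hj'.2, if_neg h2]
        by_cases h3 : s j = y
        · exfalso
          push Not at h2
          have := hj.2 h3 (hlate j h2)
          linarith
        · rw [if_neg h3]
      · rw [if_neg h1, if_neg hj'.1]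
    · rw [Finset.sum_insert hj0H, hj0y]
      have := (hY y hy).2
      omega
    · rw [Finset.sum_insert hj0H, hj0y, Finset.sum_union hUnion]
      have e1 : ∑ j ∈ started σ (k : ℝ) \ H, s j ≤ G :=
        Finset.sum_le_sum_of_subset Finset.sdiff_subset
      have e2 : ∑ j ∈ E (L - 1), s j = y * (E (L - 1)).card := by
        rw [Finset.sum_congr rfl (fun j hj => ((hEmem _ j).1 hj).1), Finset.sum_const, smul_eq_mul,
          mul_comm]
      rw [e2]
      have e3 : G < (L - 1) * d := by
        have h1 : L - 1 = g + 1 := by omega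
        rw [h1]
        exact hgd2
      have e4 : (L - 1) * d + (L - 1) * (m - ∑ h ∈ H, s h - w) =
          (L - 1) * (m - ∑ h ∈ H, s h - 2 * K) := by
        rw [← Nat.mul_add]
        congr 1
        omega
      have e5 : (L - 1) * (m - ∑ h ∈ H, s h - 2 * K) ≤
          L * (m - (y + ∑ x ∈ H, s x) - K + 1) := by
        have := (hY y hy).2
        apply Nat.mul_le_mul <;> omega
      omega
  have g6 : (k : ℝ) + (L - 1 : ℕ) + L ≤ 13 / 6 * L := by
    have : (13 / 6 : ℝ) * OPT m s t2 ≤ 13 / 6 * L := by
      apply mul_le_mul_of_nonneg_left g5; norm_num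
    rw [g3] at g2
    linarith
  have g7 : 6 * k + 6 * (L - 1) ≤ 7 * L := by
    have : (6 : ℝ) * k + 6 * ((L - 1 : ℕ) : ℝ) ≤ 7 * L := by linarith
    exact_mod_cast this
  have g8 : 6 * (k - 2) ≤ g := by omega
  calc 6 * d * (k - 2) = 6 * (k - 2) * d := by ring
    _ ≤ g * d := Nat.mul_le_mul_right _ g8
    _ ≤ G := hgd

end stage


/-- Divergence of the harmonic series, in the form needed. -/
lemma harmonic (δ : ℝ) (hδ : 0 < δ) (k0 : ℕ) (hk0 : 1 ≤ k0) :
    ∃ T : ℕ, ∀ e : ℕ → ℝ, (∀ k, 0 ≤ e k ∧ e k ≤ 1) →
      ∃ k, k0 < k ∧ k ≤ T ∧ ((k : ℝ) - 1) * (e (k - 1) - e k) ≤ δ := by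
  have htend := Real.tendsto_sum_range_one_div_nat_succ_atTop
  set f : ℕ → ℝ := fun n => ∑ i ∈ Finset.range n, (1 / ((i : ℝ) + 1)) with hf
  obtain ⟨T', hT'⟩ := ((Filter.tendsto_atTop.mp htend (f (k0 - 1) + 2 / δ)).and
    (Filter.eventually_ge_atTop k0)).exists
  refine ⟨T' + 1, fun e he => ?_⟩
  by_contra hcon
  push Not at hcon
  have hind : ∀ k, k0 ≤ k → k ≤ T' + 1 → e k + δ * (f (k - 1) - f (k0 - 1)) ≤ e k0 := by
    intro k hk
    induction k, hk using Nat.le_induction with
    | base => intro _; simp
    | succ k hk ih =>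
      intro hkT
      have h1 := ih (by omega)
      have h2 := hcon (k + 1) (by omega) hkT
      have h3 : f k = f (k - 1) + 1 / (k : ℝ) := by
        obtain ⟨c, rfl⟩ : ∃ c, k = c + 1 := ⟨k - 1, by omega⟩
        simp only [hf, Nat.add_sub_cancel, Finset.sum_range_succ]
        push_cast
        ring
      have hkpos : (0 : ℝ) < k := by
        have : 0 < k := by omega
        exact_mod_cast this
      have h4 : δ / k < e k - e (k + 1) := by
        rw [div_lt_iff₀ hkpos]
        have e1 : ((k + 1 : ℕ) : ℝ) - 1 = k := by push_cast; ring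
        rw [e1] at h2
        have e2 : k + 1 - 1 = k := by omega
        rw [e2] at h2
        linarith
      have e3 : k + 1 - 1 = k := by omega
      rw [e3, h3]
      have e4 : δ * (f (k - 1) + 1 / (k : ℝ) - f (k0 - 1)) =
          δ * (f (k - 1) - f (k0 - 1)) + δ / k := by ring
      rw [e4]
      linarith
  have h5 := hind (T' + 1) (by omega) le_rfl
  have h6 : f (k0 - 1) + 2 / δ ≤ f T' := hT'.1
  have h7 : T' + 1 - 1 = T' := by omega
  rw [h7] at h5
  have h8 : δ * (2 / δ) ≤ δ * (f T' - f (k0 - 1)) := by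
    apply mul_le_mul_of_nonneg_left _ hδ.le
    linarith
  have h9 : δ * (2 / δ) = 2 := by field_simp
  have h10 := (he (T' + 1)).1
  have h11 := (he k0).2
  linarith

/-- The weights of the fourteen widths `15, …, 28`. -/
def wt (y : ℕ) : ℕ :=
  match y with
  | 15 => 154 | 16 => 167 | 17 => 183 | 18 => 201 | 19 => 44 | 20 => 33 | 21 => 31
  | 22 => 30 | 23 => 29 | 24 => 28 | 25 => 26 | 26 => 25 | 27 => 24 | 28 => 24
  | _ => 0

def tot (x i : ℕ) : ℕ :=
  154 * max (i % 15) ((x + i) % 15) + 167 * max (i % 16) ((x + i) % 16) +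
  183 * max (i % 17) ((x + i) % 17) + 201 * max (i % 18) ((x + i) % 18) +
  44 * max (i % 19) ((x + i) % 19) + 33 * max (i % 20) ((x + i) % 20) +
  31 * max (i % 21) ((x + i) % 21) + 30 * max (i % 22) ((x + i) % 22) +
  29 * max (i % 23) ((x + i) % 23) + 28 * max (i % 24) ((x + i) % 24) +
  26 * max (i % 25) ((x + i) % 25) + 25 * max (i % 26) ((x + i) % 26) +
  24 * max (i % 27) ((x + i) % 27) + 24 * max (i % 28) ((x + i) % 28)

def chk (x : ℕ) : ℕ → Bool
  | 0 => true
  | (n+1) => Nat.ble (338 * x) (tot x n + 4 * n) && chk x n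

def chkAll : ℕ → Bool
  | 0 => true
  | (n+1) => chk (15 + n) 2367 && chkAll n

set_option maxRecDepth 100000 in
theorem chkAll_ok : chkAll 14 = true := by decide +kernel

lemma chk_spec (x : ℕ) : ∀ n, chk x n = true → ∀ i, i < n → 338 * x ≤ tot x i + 4 * i := by
  intro n
  induction n with
  | zero => intro _ i hi; omega
  | succ n ih =>
    intro h i hi
    rw [chk, Bool.and_eq_true] at h
    rcases Nat.lt_succ_iff_lt_or_eq.mp hi with h' | rfl
    · exact ih h.2 i h'
    · exact Nat.le_of_ble_eq_true h.1

lemma chkAll_spec : ∀ n, chkAll n = true → ∀ x, x < n → chk (15 + x) 2367 = true := by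
  intro n
  induction n with
  | zero => intro _ i hi; omega
  | succ n ih =>
    intro h i hi
    rw [chkAll, Bool.and_eq_true] at h
    rcases Nat.lt_succ_iff_lt_or_eq.mp hi with h' | rfl
    · exact ih h.2 i h'
    · exact h.1

lemma star_cert : Star (Finset.Icc 15 28) wt 338 4 := by
  intro x hx i
  rw [Finset.mem_Icc] at hx
  have htot : ∑ y ∈ Finset.Icc 15 28, wt y * max (i % y) ((x + i) % y) = tot x i := by
    simp [Finset.sum_Icc_succ_top, wt, tot]
  rw [htot]
  by_cases hi : i < 2367
  · have := chk_spec x 2367 (by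
      have := chkAll_spec 14 chkAll_ok (x - 15) (by omega)
      rwa [show 15 + (x - 15) = x by omega] at this) i hi
    exact this
  · omega

lemma sum_wt : ∑ y ∈ Finset.Icc 15 28, wt y = 999 := by decide

/-- Widths of the instance: `N` jobs of each of the widths `15, …, 28`. -/
def wid (N : ℕ) : Fin (14 * N) → ℕ := fun j => 15 + (j : ℕ) % 14

lemma wid_mem (N : ℕ) (j : Fin (14 * N)) : wid N j ∈ Finset.Icc 15 28 := by
  rw [Finset.mem_Icc, wid]
  omega

lemma wid_card (N : ℕ) (y : ℕ) (hy : y ∈ Finset.Icc 15 28) :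
    N ≤ (Finset.univ.filter (fun j => wid N j = y)).card := by
  rw [Finset.mem_Icc] at hy
  have h := Finset.card_le_card_of_injOn (s := (Finset.univ : Finset (Fin N)))
    (t := Finset.univ.filter (fun j => wid N j = y))
    (fun i => (⟨14 * (i : ℕ) + (y - 15), by have := i.2; omega⟩ : Fin (14 * N)))
    (by
      intro i _
      rw [Finset.mem_coe, Finset.mem_filter]
      refine ⟨Finset.mem_univ _, ?_⟩
      change 15 + (14 * (i : ℕ) + (y - 15)) % 14 = y
      omega)
    (by
      intro i _ j _ hij
      simp only [Fin.mk.injEq] at hij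
      ext
      omega)
  simpa using h

/-- **Main theorem.** For every number `m ≥ 50000` of machines, no deterministic batch-style online
algorithm on the linear array is `c`-competitive for any `c ≤ 13/6`. -/
theorem result : ∀ m : ℕ, 50000 ≤ m → ∀ A : OnlineAlg m, ∀ c : ℝ, c ≤ 13 / 6 →
    ¬ A.Competitive c := by
  intro m hm A c hc hAc
  have hA : A.Competitive (13 / 6) := by
    intro n s t hv
    refine (hAc n s t hv).trans ?_
    exact mul_le_mul_of_nonneg_right hc (OPT_nonneg s t hv)
  obtain ⟨T, hT⟩ := harmonic (1 / 1000) (by norm_num) 100000 (by norm_num)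
  set N : ℕ := m * T + m * (m * T + 2) + 1 with hN
  set s := wid N with hs
  have hv0 : Valid m s (fun _ => (1 : ℝ)) := by
    refine ⟨fun j => ?_, fun _ => zero_le_one⟩
    have := wid_mem N j
    rw [Finset.mem_Icc] at this
    constructor
    · exact le_trans (by norm_num) this.1
    · exact le_trans this.2 (by omega)
  set σ := A.run (14 * N) s (fun _ => 1) with hσ
  have hf0 : Feasible m s (fun _ => (1 : ℝ)) σ := A.feasible _ s _ hv0
  have hmpos : (0 : ℝ) < m := by
    have : 0 < m := by omega
    exact_mod_cast this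
  let G : ℕ → ℕ := fun k => ∑ j ∈ started σ (k : ℝ), s j
  have hG : ∀ k, G k = ∑ j ∈ started σ (k : ℝ), s j := fun k => rfl
  have hGle : ∀ k, G k ≤ m * k := fun k => G_le s σ hf0 k
  obtain ⟨k, hk1, hk2, hk3⟩ := hT (fun k => (G k : ℝ) / (m * k)) (by
    intro k
    constructor
    · positivity
    · have h1 : (G k : ℝ) ≤ m * k := by exact_mod_cast hGle k
      exact div_le_one_of_le₀ h1 (by positivity))
  have hkT : m * k ≤ m * T := Nat.mul_le_mul_left _ hk2
  have hkT2 : m * (m * k + 2) ≤ m * (m * T + 2) := Nat.mul_le_mul_left _ (by omega)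
  -- the two adversaries
  have hsb : ∀ j, 15 ≤ s j ∧ s j ≤ 28 := fun j => by
    have := wid_mem N j
    rw [Finset.mem_Icc] at this
    exact this
  have hS := stop A hA 28 s (fun j => by have := hsb j; omega)
    (fun j => (hsb j).2) (by omega) k (by omega)
  obtain ⟨w, hF1, hF2⟩ := freeze_stage A hA (Finset.Icc 15 28) wt 338 4 28 star_cert
    ⟨15, by simp⟩ (fun x hx => by rw [Finset.mem_Icc] at hx; omega) (by omega) s
    (fun j => wid_mem N j) k N (fun y hy => wid_card N y hy) (by omega)
  rw [sum_wt] at hF1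
  rw [← hσ] at hF1 hF2 hS
  rw [← hG] at hF2 hS
  set b := ∑ j ∈ cfg σ k, s j with hb
  have hbm : b ≤ m := cfg_le s σ hf0 k
  obtain ⟨k', rfl⟩ : ∃ k', k = k' + 1 := ⟨k - 1, by omega⟩
  have hGs : G (k' + 1) = G k' + b := by
    rw [hG, hG, hb]
    exact started_succ s σ k'
  -- pass to real numbers
  have hk'pos : (0 : ℝ) < (k' : ℝ) := by
    have : 0 < k' := by omega
    exact_mod_cast this
  have hkr : (100000 : ℝ) < (k' : ℝ) + 1 := by
    have : ((100000 : ℕ) : ℝ) < ((k' + 1 : ℕ) : ℝ) := by exact_mod_cast hk1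
    push_cast at this
    exact this
  set g : ℝ := (G (k' + 1) : ℝ) / ((k' : ℝ) + 1) with hg
  have hgG : (G (k' + 1) : ℝ) = g * ((k' : ℝ) + 1) := by
    rw [hg]; field_simp
  have hg0 : 0 ≤ g := by rw [hg]; positivity
  have hgm : g ≤ m := by
    rw [hg, div_le_iff₀ (by linarith)]
    have := hGle (k' + 1)
    have h2 : (G (k' + 1) : ℝ) ≤ ((m * (k' + 1) : ℕ) : ℝ) := by exact_mod_cast this
    push_cast at h2
    exact h2
  have hGsr : (G (k' + 1) : ℝ) = G k' + b := by exact_mod_cast hGs
  -- b ≥ g - m / 1000
  have hbg : g - m / 1000 ≤ b := by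
    have e1 : k' + 1 - 1 = k' := by omega
    simp only [e1] at hk3
    push_cast at hk3
    have e2 : ((k' : ℝ) + 1 - 1) = k' := by ring
    rw [e2] at hk3
    have e3 : (k' : ℝ) * ((G k' : ℝ) / (m * k') - (G (k' + 1) : ℝ) / (m * (k' + 1))) =
        (G k' - g * k') / m := by
      rw [hgG]
      field_simp
    rw [e3, div_le_iff₀ hmpos] at hk3
    have e4 : (G k' : ℝ) = g * (k' + 1) - b := by linarith
    have e5 : g * ((k' : ℝ) + 1) = g * k' + g := by ring
    rw [e4, e5] at hk3
    linarith
  -- the stopping inequality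
  have hSr : (m - 56 : ℝ) * (6 / 7 - 1 / 100000) ≤ g := by
    have hcast : ((m - 2 * 28 : ℕ) : ℝ) = m - 56 := by
      rw [Nat.cast_sub (by omega)]; norm_num
    have h1 : (6 : ℝ) * ((k' : ℝ) + 1) * (m - 56) ≤ 7 * (G (k' + 1) : ℝ) + 7 * (m - 56) := by
      rw [← hcast]
      exact_mod_cast hS
    rw [hgG] at h1
    have hm56 : (0 : ℝ) ≤ m - 56 := by
      rw [← hcast]; positivity
    have h2 : 7 * ((m - 56 : ℝ)) ≤ 7 * ((m - 56) * (1 / 100000)) * ((k' : ℝ) + 1) := by
      have : (m - 56 : ℝ) * 1 ≤ (m - 56) * ((1 / 100000) * ((k' : ℝ) + 1)) := by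
        apply mul_le_mul_of_nonneg_left _ hm56
        linarith
      linarith
    have h3 : ((k' : ℝ) + 1) * (6 * (m - 56)) ≤
        ((k' : ℝ) + 1) * (7 * g + 7 * ((m - 56) * (1 / 100000))) := by
      have e1 : ((k' : ℝ) + 1) * (6 * (m - 56)) = 6 * ((k' : ℝ) + 1) * (m - 56) := by ring
      have e2 : ((k' : ℝ) + 1) * (7 * g + 7 * ((m - 56) * (1 / 100000))) =
        7 * (g * ((k' : ℝ) + 1)) + 7 * ((m - 56) * (1 / 100000)) * ((k' : ℝ) + 1) := by ring
      rw [e1, e2]
      linarith
    have h4 := le_of_mul_le_mul_left h3 (by linarith)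
    linarith
  -- the freezing inequality
  have hF1r : (346 : ℝ) * b ≤ 1998 * w + 9464 + 8 * m := by
    have hcast : ((m - b : ℕ) : ℝ) = m - b := Nat.cast_sub hbm
    have h1 : (338 : ℝ) * b ≤ 2 * 999 * w + 338 * 28 + 2 * 4 * ((m - b : ℕ) : ℝ) := by
      exact_mod_cast hF1
    rw [hcast] at h1
    linarith
  have hF2r : 6 * ((w : ℝ) - 56) * ((k' : ℝ) - 1) ≤ g * ((k' : ℝ) + 1) := by
    rw [← hgG]
    rcases Nat.lt_or_ge w 56 with hw | hw
    · have h1 : (w : ℝ) - 56 ≤ 0 := by
        have : (w : ℝ) ≤ 56 := by exact_mod_cast hw.le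
        linarith
      have h2 : (0 : ℝ) ≤ (k' : ℝ) - 1 := by linarith
      have h3 : 6 * ((w : ℝ) - 56) * ((k' : ℝ) - 1) ≤ 0 :=
        mul_nonpos_of_nonpos_of_nonneg (by linarith) h2
      exact h3.trans (by positivity)
    · have hc1 : ((w - 2 * 28 : ℕ) : ℝ) = w - 56 := by
        rw [Nat.cast_sub (by omega)]; norm_num
      have hc2 : ((k' + 1 - 2 : ℕ) : ℝ) = k' - 1 := by
        rw [Nat.cast_sub (by omega)]; push_cast; ring
      rw [← hc1, ← hc2]
      exact_mod_cast hF2
  have hw : 6 * ((w : ℝ) - 56) ≤ g * (1 + 1 / 40000) := by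
    have h2 : (0 : ℝ) < (k' : ℝ) - 1 := by linarith
    have h3 : 6 * ((w : ℝ) - 56) * ((k' : ℝ) - 1) ≤ g * (1 + 1 / 40000) * ((k' : ℝ) - 1) := by
      refine hF2r.trans ?_
      have : (k' : ℝ) + 1 ≤ (1 + 1 / 40000) * ((k' : ℝ) - 1) := by linarith
      calc g * ((k' : ℝ) + 1) ≤ g * ((1 + 1 / 40000) * ((k' : ℝ) - 1)) :=
            mul_le_mul_of_nonneg_left this hg0
        _ = _ := by ring
    exact le_of_mul_le_mul_right h3 h2
  have hmr : (50000 : ℝ) ≤ m := by exact_mod_cast hm
  linarith

end Pool.Agent.Results.MP_e25616_lc.DetLowerBound
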