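import Pool.Agent.SMA.FinD
import Pool.Agent.SMA.FinB
import Pool.Agent.SMA.LOW

/-!
# The optimal deterministic competitive ratio on a linear array of `m` machines is `2 - 1/m` exactly for `m ≤ 4`

For `m = 1, 2, 3, 4` the least competitive ratio of deterministic batch-style algorithms is `2 - 1/m`; for every
`m ≥ 5` every ratio is larger than `2 - 1/m + 1/(64 m ^ 3)`.
-/

set_option autoImplicit false

namespace Pool.Agent.Results.MP_e25616_lc.DetThreshold

open Pool.Agent.BSR Pool.Agent.SMA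

/-- For `m ≤ 4` machines the best deterministic competitive ratio is `2 - 1/m`, and it is attained; for `m ≥ 5` machines
it is strictly larger. -/
theorem result :
    (∀ m : ℕ, 1 ≤ m → m ≤ 4 → IsLeast {c : ℝ | DetOK m c} (2 - 1 / (m : ℝ))) ∧
    ∀ m : ℕ, 5 ≤ m → ∀ c : ℝ, DetOK m c → 2 - 1 / (m : ℝ) + 1 / (64 * (m : ℝ) ^ 3) < c := by
  refine ⟨fun m h1 h4 => ⟨a_DET m h1 h4, fun c hc => t_LOW m c h1 hc⟩, fun m h5 c hc => ?_⟩
  by_contra h
  exact a_REX m h5 (detOK_mono m c _ (not_lt.1 h) hc)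

end Pool.Agent.Results.MP_e25616_lc.DetThreshold
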