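import Pool.Agent.RLA.LAB
import Pool.Agent.RLA.LSB
import Pool.Agent.RLA.GEO
import Pool.Agent.RLA.CEL
import Pool.Agent.RLA.CNT
import Pool.Agent.RLA.RUN
import Pool.Agent.RLA.SCA
import Pool.Agent.RLA.WNM
import Pool.Agent.RLA.WLK
import Pool.Agent.RLA.ALW
import Pool.Agent.RLA.SRT
import Pool.Agent.RLA.MAI
import Pool.Agent.BSR.ARE
import Pool.Agent.BSR.REL

/-!
# A randomised batch-style algorithm with ratio 2.47 on a linear array

For all `m ≥ 1` and all requests `1 ≤ s j ≤ m` there is a randomised batch-style algorithm whose expected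
makespan is at most `2.47 OPT` for all running times; the best known ratio is `2.5`.
-/

set_option autoImplicit false

namespace Pool.Agent.Results.MP_e25616_lc.RandomisedAll

open Pool.Agent.BSR Pool.Agent.RLA

theorem result (m n : ℕ) (s : Fin n → ℕ) (hm : 0 < m) (hs : ∀ j, 1 ≤ s j ∧ s j ≤ m) :
    ∃ (Ω : Type) (_ : Fintype Ω) (p : Ω → ℝ) (A : Ω → Rule m s), (∀ ω, 0 ≤ p ω) ∧ ∑ ω, p ω = 1 ∧
      ∀ t : Fin n → ℝ, (∀ j, 0 ≤ t j) →
        ∑ ω, p ω * makespan t ((A ω).run t) ≤ (247 / 100) * OPT m s t :=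
  x_MAI x_WLK
    (x_SRT (x_ALW (x_WNM x_LSB (x_SCA x_LSB)) (x_SCA x_LSB))
      (x_RUN (x_GEO x_LAB x_LSB) (x_CNT x_LAB x_LSB x_CEL) x_ARE) x_ARE) x_REL x_ARE m n s hm hs

end Pool.Agent.Results.MP_e25616_lc.RandomisedAll
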