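import Pool.Agent.SMA.FinA
import Pool.Agent.SMA.FinD
import Pool.Agent.SMA.LOG
import Pool.Agent.SMA.YAO
import Pool.Agent.SMA.LOW
import Pool.Agent.SMA.RTG

/-!
# Two machines: the optimal deterministic ratio is `3/2`, the optimal randomised ratio is `5/4`
-/

set_option autoImplicit false

namespace Pool.Agent.Results.MP_e25616_lc.TwoMachines

open Pool.Agent.BSR Pool.Agent.SMA

/-- For two machines the best competitive ratio of deterministic algorithms is `3/2`, and that of randomised algorithms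
is `5/4`, for distributions on finitely many rules and for arbitrary probability spaces. -/
theorem result : IsLeast {c : ℝ | DetOK 2 c} (3 / 2) ∧ IsLeast {c : ℝ | RandOK 2 c} (5 / 4) ∧
    IsLeast {c : ℝ | RandGen 2 c} (5 / 4) := by
  have hl : ∀ c : ℝ, RandGen 2 c → 5 / 4 ≤ c := t_LOG t_YAO
  have e : (2 : ℝ) - 1 / ((2 : ℕ) : ℝ) = 3 / 2 := by norm_num
  refine ⟨⟨?_, fun c hc => ?_⟩, ⟨a_UP2, fun c hc => hl c (t_RTG 2 c hc)⟩, ⟨t_RTG 2 _ a_UP2, hl⟩⟩
  · have h := a_DET 2 (by norm_num) (by norm_num)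
    rw [e] at h
    exact h
  · have h := t_LOW 2 c (by norm_num) hc
    rw [e] at h
    exact h

end Pool.Agent.Results.MP_e25616_lc.TwoMachines
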